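import Mathlib

open Metric Set

namespace Pool.Agent.Results.MP_122452_an.PowerType

variable {X : Type} [NormedAddCommGroup X] [NormedSpace ℝ X]

/-- second order Lipschitz on `U` -/
def SecondLip (U : Set X) (f : X → X) : Prop :=
  ∃ C : ℝ, ∀ t > 0, ∀ x h : X, ‖h‖ ≤ t → segment ℝ (x - h) (x + h) ⊆ U →
    ‖f (x + h) - (2 : ℝ) • f x + f (x - h)‖ ≤ C * t ^ 2

/-- Lipschitz-open on `U` -/
def LipOpen (U : Set X) (f : X → X) : Prop :=
  ∃ c > 0, ∀ x ∈ U, ∀ ε > 0, ball x ε ⊆ U → ball (f x) (c * ε) ⊆ f '' ball x ε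

/-- locally convex on `U` -/
def LocConv (U : Set X) (f : X → X) : Prop :=
  ∃ c > 0, ∀ ε > 0, ε ≤ c → ∀ x ∈ U, ball x ε ⊆ U → Convex ℝ (f '' ball x ε)

/-- modulus of convexity of power type 2 -/
def PowerType2 (X : Type) [NormedAddCommGroup X] [NormedSpace ℝ X] : Prop :=
  ∃ L > 0, ∀ t ∈ Icc (0 : ℝ) 2, ∀ x y : X, ‖x‖ = 1 → ‖y‖ = 1 → t ≤ ‖x - y‖ →
    L * t ^ 2 ≤ 1 - ‖(1 / 2 : ℝ) • (x + y)‖

/-- the dual space -/
abbrev Dl (Y : Type) [NormedAddCommGroup Y] [NormedSpace ℝ Y] := StrongDual ℝ Y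

/-- the value of a functional at a vector -/
def app {Y : Type} [NormedAddCommGroup Y] [NormedSpace ℝ Y] (f : Dl Y) (y : Y) : ℝ := f y

/-- every element of the bidual is evaluation at a vector -/
def Reflexive (Y : Type) [NormedAddCommGroup Y] [NormedSpace ℝ Y] : Prop :=
  ∀ z : Dl (Dl Y), ∃ y : Y, ∀ f : Dl Y, app z f = app f y

/-- `Y` is finitely representable in `X` -/
def FinRep (Y X : Type) [NormedAddCommGroup Y] [NormedSpace ℝ Y] [NormedAddCommGroup X]
    [NormedSpace ℝ X] : Prop :=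
  ∀ E : Submodule ℝ Y, FiniteDimensional ℝ E → ∀ ε > (0 : ℝ), ∃ T : E →ₗ[ℝ] X,
    ∀ e : E, ‖(e : Y)‖ ≤ (1 + ε) * ‖T e‖ ∧ ‖T e‖ ≤ (1 + ε) * ‖(e : Y)‖

/-- every Banach space finitely representable in `X` is reflexive -/
def Superreflexive (X : Type) [NormedAddCommGroup X] [NormedSpace ℝ X] : Prop :=
  ∀ (Y : Type) [NormedAddCommGroup Y] [NormedSpace ℝ Y] [CompleteSpace Y],
    FinRep Y X → Reflexive Y

theorem shear (L : ℝ) (hL : L ≤ 1 / 8) (x y : X) (hx : ‖x‖ = 1) (hy : ‖y‖ = 1)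
    (h : 1 - ‖(1 / 2 : ℝ) • (x + y)‖ < L * ‖x - y‖ ^ 2) :
    ∃ (k : X →L[ℝ] ℝ) (m v : X), ‖m + v‖ = 1 ∧ ‖m - v‖ = 1 ∧ k m = 0 ∧ (∀ z, |k z| ≤ 2 * ‖z‖) ∧
      ‖v‖ / 2 ≤ k v ∧ 1 / 2 ≤ ‖m‖ ∧ ‖m‖ ≤ 1 ∧ ‖v‖ ≤ 1 ∧ 1 - ‖m‖ < 4 * L * ‖v‖ ^ 2 := by
  set m := (1 / 2 : ℝ) • (x + y) with hm
  set v := (1 / 2 : ℝ) • (x - y) with hv
  have e1 : m + v = x := by rw [hm, hv]; module
  have e2 : m - v = y := by rw [hm, hv]; module
  have e3 : ‖x - y‖ = 2 * ‖v‖ := by
    rw [hv, norm_smul, Real.norm_of_nonneg (by norm_num)]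
    ring
  have e4 : ‖m‖ ≤ 1 := by
    rw [hm, norm_smul, Real.norm_of_nonneg (by norm_num)]
    linarith [norm_add_le x y]
  have e5 : ‖v‖ ≤ 1 := by linarith [norm_sub_le x y]
  rw [e3] at h
  have v0 := norm_nonneg v
  have e6 : 1 - ‖m‖ ≤ ‖v‖ / 2 := by nlinarith [sq_nonneg ‖v‖]
  have e7 : 1 / 2 ≤ ‖m‖ := by linarith
  obtain ⟨a, a1, a2⟩ := exists_dual_vector'' ℝ m
  obtain ⟨b, b1, b2⟩ := exists_dual_vector'' ℝ v
  have a2 : a m = ‖m‖ := a2
  have b2 : b v = ‖v‖ := b2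
  have ha : ∀ z, |a z| ≤ ‖z‖ := fun z => (a.le_of_opNorm_le a1 z).trans_eq (one_mul _)
  have hb : ∀ z, |b z| ≤ ‖z‖ := fun z => (b.le_of_opNorm_le b1 z).trans_eq (one_mul _)
  have hq : |b m / ‖m‖| ≤ 1 := by
    rw [abs_div, abs_norm, div_le_one (by linarith)]
    exact hb m
  have hk : ∀ z, |b m / ‖m‖ * a z| ≤ |a z| := fun z => by
    rw [abs_mul]
    exact mul_le_of_le_one_left (abs_nonneg _) hq
  refine ⟨b - (b m / ‖m‖) • a, m, v, e1 ▸ hx, e2 ▸ hy, ?_, fun z => ?_, ?_, e7, e4, e5, by linarith⟩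
  · change b m - b m / ‖m‖ * a m = 0
    rw [a2, div_mul_cancel₀ _ (by linarith), sub_self]
  · change |b z - b m / ‖m‖ * a z| ≤ _
    linarith [abs_sub (b z) (b m / ‖m‖ * a z), hk z, ha z, hb z]
  · change _ ≤ b v - b m / ‖m‖ * a v
    have h1 := (le_abs_self _).trans (ha (m + v))
    have h2 := (le_abs_self _).trans (ha (m - v))
    rw [map_add, e1, hx] at h1
    rw [map_sub, e2, hy] at h2
    have h3 : |a v| ≤ 1 - ‖m‖ := abs_le.2 ⟨by linarith, by linarith⟩
    linarith [le_abs_self (b m / ‖m‖ * a v), hk v]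

theorem second (u : ℝ → ℝ) (hu : Differentiable ℝ u) (K : NNReal) (hK : LipschitzWith K (deriv u))
    (s r : ℝ) : |u (s + r) - 2 * u s + u (s - r)| ≤ 2 * K * r ^ 2 := by
  have h1 : ∀ t, HasDerivAt (fun t => u (s + t) + u (s - t)) (deriv u (s + t) - deriv u (s - t)) t :=
    fun t => by
      have a := (hu (s + t)).hasDerivAt.comp_const_add s t
      have b := (hu (s - t)).hasDerivAt.comp_const_sub s t
      exact a.add b
  have h2 := (convex_closedBall (0 : ℝ) |r|).norm_image_sub_le_of_norm_hasDerivWithin_le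
    (C := 2 * K * |r|) (fun t _ => (h1 t).hasDerivWithinAt) (fun t ht => by
      have h3 := hK.dist_le_mul (s + t) (s - t)
      rw [Real.dist_eq, Real.dist_eq, show s + t - (s - t) = 2 * t by ring, abs_mul, abs_two] at h3
      rw [mem_closedBall_zero_iff, Real.norm_eq_abs] at ht
      refine h3.trans ?_
      have := mul_le_mul_of_nonneg_left ht K.2
      have e : (K : ℝ) = K.1 := rfl
      rw [e]
      linarith) (mem_closedBall_self (abs_nonneg r)) (y := r) (by simp)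
  simp only [add_zero, sub_zero, Real.norm_eq_abs] at h2
  rw [show u (s + r) - 2 * u s + u (s - r) = u (s + r) + u (s - r) - (u s + u s) by ring, ← sq_abs,
    sq, ← mul_assoc]
  exact h2

theorem cutoff : ∃ (u : ℝ → ℝ) (K : ℝ), 0 ≤ K ∧ (∀ s, |u s| ≤ 1) ∧ (∀ s, |s| ≤ 1 → u s = 1) ∧
    (∀ s, 2 ≤ |s| → u s = 0) ∧ (∀ s t, |u s - u t| ≤ K * |s - t|) ∧
    ∀ s r, |u (s + r) - 2 * u s + u (s - r)| ≤ K * r ^ 2 := by
  let u : ContDiffBump (0 : ℝ) := ⟨1, 2, one_pos, one_lt_two⟩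
  have h1 : ContDiff ℝ 2 u := u.contDiff
  obtain ⟨K1, hK1⟩ := h1.lipschitzWith_of_hasCompactSupport u.hasCompactSupport (by simp)
  obtain ⟨K2, hK2⟩ := (ContDiff.deriv' (n := 1) h1).lipschitzWith_of_hasCompactSupport
    u.hasCompactSupport.deriv (by simp)
  refine ⟨u, K1 + 2 * K2, by positivity, fun s => ?_, fun s hs => ?_, fun s hs => ?_,
    fun s t => ?_, fun s r => ?_⟩
  · rw [abs_of_nonneg u.nonneg]
    exact u.le_one
  · exact u.one_of_mem_closedBall (by simpa using hs)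
  · exact u.zero_of_le_dist (by simpa using hs)
  · have := hK1.dist_le_mul s t
    rw [Real.dist_eq, Real.dist_eq] at this
    have h2 : (0 : ℝ) ≤ 2 * K2 * |s - t| := by positivity
    linarith
  · have := second u (h1.differentiable (by simp)) K2 hK2 s r
    have h2 : (0 : ℝ) ≤ K1 * r ^ 2 := by positivity
    linarith

theorem prod_good {a b : X → ℝ} {K : ℝ} (hK : 0 ≤ K) (a0 : ∀ z, |a z| ≤ 1) (b0 : ∀ z, |b z| ≤ 2)
    (a1 : ∀ z w, |a z - a w| ≤ K * ‖z - w‖) (b1 : ∀ z w, |b z - b w| ≤ 2 * ‖z - w‖)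
    (a2 : ∀ z h, |a (z + h) - 2 * a z + a (z - h)| ≤ K * ‖h‖ ^ 2)
    (b2 : ∀ z h, |b (z + h) - 2 * b z + b (z - h)| ≤ 4 * ‖h‖ ^ 2) :
    (∀ z w, |a z * b z - a w * b w| ≤ (4 + 6 * K) * ‖z - w‖) ∧
    ∀ z h, |a (z + h) * b (z + h) - 2 * (a z * b z) + a (z - h) * b (z - h)|
      ≤ (4 + 6 * K) * ‖h‖ ^ 2 := by
  have mm : ∀ {p q P Q : ℝ}, |p| ≤ P → |q| ≤ Q → |p * q| ≤ P * Q := fun hp hq => by
    rw [abs_mul]
    exact mul_le_mul hp hq (abs_nonneg _) ((abs_nonneg _).trans hp)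
  refine ⟨fun z w => ?_, fun z h => ?_⟩
  · have h1 := abs_le.1 (mm (a0 z) (b1 z w))
    have h2 := abs_le.1 (mm (a1 z w) (b0 w))
    have h3 := mul_nonneg hK (norm_nonneg (z - w))
    have h4 := norm_nonneg (z - w)
    rw [abs_le]
    constructor <;> nlinarith
  · have h1 := abs_le.1 (mm (a0 z) (b2 z h))
    have h2 := abs_le.1 (mm (a2 z h) (b0 z))
    have h3 := abs_le.1 (mm (a1 (z + h) z) (b1 (z + h) z))
    have h4 := abs_le.1 (mm (a1 (z - h) z) (b1 (z - h) z))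
    rw [add_sub_cancel_left] at h3
    rw [sub_sub_cancel_left, norm_neg] at h4
    rw [abs_le]
    constructor <;> nlinarith

theorem cos_good (k : X →L[ℝ] ℝ) (hk : ∀ z, |k z| ≤ 2 * ‖z‖) (p : X) :
    (∀ z, |1 - Real.cos (k (z - p))| ≤ 2) ∧
    (∀ z w, |1 - Real.cos (k (z - p)) - (1 - Real.cos (k (w - p)))| ≤ 2 * ‖z - w‖) ∧
    ∀ z h, |1 - Real.cos (k (z + h - p)) - 2 * (1 - Real.cos (k (z - p))) +
      (1 - Real.cos (k (z - h - p)))| ≤ 4 * ‖h‖ ^ 2 := by
  refine ⟨fun z => ?_, fun z w => ?_, fun z h => ?_⟩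
  · rw [abs_le]
    constructor <;> linarith [Real.cos_le_one (k (z - p)), Real.neg_one_le_cos (k (z - p))]
  · rw [sub_sub_sub_cancel_left, abs_sub_comm]
    refine (Real.abs_cos_sub_cos_le _ _).trans ?_
    rw [← map_sub, sub_sub_sub_cancel_right]
    exact hk _
  · rw [show z + h - p = z - p + h by abel, show z - h - p = z - p - h by abel, map_add,
      map_sub k (z - p) h, Real.cos_add, Real.cos_sub]
    have h1 := Real.one_sub_sq_div_two_le_cos (x := k h)
    have h2 := Real.cos_le_one (k h)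
    have h3 := Real.cos_le_one (k (z - p))
    have h4 := Real.neg_one_le_cos (k (z - p))
    have h5 : (k h) ^ 2 ≤ (2 * ‖h‖) ^ 2 := by
      rw [← sq_abs]
      exact pow_le_pow_left₀ (abs_nonneg _) (hk h) 2
    rw [abs_le]
    constructor <;> nlinarith

theorem power (X : Type) [NormedAddCommGroup X] [NormedSpace ℝ X] [CompleteSpace X]
    (H : ∀ f : X → X, LipOpen univ f → SecondLip univ f → LocConv univ f) : PowerType2 X := by
  by_contra hn
  have h1 : ∀ n : ℕ, ∃ x y : X, ‖x‖ = 1 ∧ ‖y‖ = 1 ∧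
      1 - ‖(1 / 2 : ℝ) • (x + y)‖ < 1 / (n + 8) * ‖x - y‖ ^ 2 := by
    intro n
    by_contra h
    push Not at h
    refine hn ⟨1 / (n + 8), by positivity, fun t ht x y hx hy hxy => le_trans ?_ (h x y hx hy)⟩
    have := ht.1
    gcongr
  choose x y hx hy hxy using h1
  choose k m v p1 p2 p3 p4 p5 p6 p7 p8 p9 using fun n : ℕ => shear (1 / (n + 8))
    (one_div_le_one_div_of_le (by norm_num) (by linarith [n.cast_nonneg (α := ℝ)])) _ _ (hx n) (hy n)
    (hxy n)
  obtain ⟨g, g1, g2⟩ := exists_dual_vector'' ℝ (x 0)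
  have g2 : g (x 0) = 1 := by rw [← hx 0]; exact g2
  have hg : ∀ z, |g z| ≤ ‖z‖ := fun z => (g.le_of_opNorm_le g1 z).trans_eq (one_mul _)
  obtain ⟨u, K, K0, u0, u1, u2, u3, u4⟩ := cutoff
  let p : ℕ → X := fun n => (4 * n : ℝ) • x 0
  let s : ℕ → X → ℝ := fun n z => u (g (z - p n)) * (1 - Real.cos (k n (z - p n)))
  have hs : ∀ n, (∀ z w, |s n z - s n w| ≤ (4 + 6 * K) * ‖z - w‖) ∧
      ∀ z h, |s n (z + h) - 2 * s n z + s n (z - h)| ≤ (4 + 6 * K) * ‖h‖ ^ 2 := fun n => by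
    obtain ⟨c0, c1, c2⟩ := cos_good (k n) (p4 n) (p n)
    refine prod_good (a := fun z => u (g (z - p n))) (b := fun z => 1 - Real.cos (k n (z - p n)))
      K0 (fun z => u0 _) c0 (fun z w => (u3 _ _).trans ?_) c1 (fun z h => ?_) c2
    · rw [← map_sub, sub_sub_sub_cancel_right]
      exact mul_le_mul_of_nonneg_left (hg _) K0
    · rw [show z + h - p n = z - p n + h by abel, show z - h - p n = z - p n - h by abel, map_add,
        map_sub g (z - p n) h]
      refine (u4 _ _).trans (mul_le_mul_of_nonneg_left ?_ K0)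
      rw [← sq_abs]
      exact pow_le_pow_left₀ (abs_nonneg _) (hg h) 2
  let N : X → ℕ := fun z => ⌊(g z + 2) / 4⌋₊
  have hN : ∀ n z, |g (z - p n)| < 2 → N z = n := fun n z h => by
    have e : g (z - p n) = g z - 4 * n := by simp [p, g2]
    rw [e, abs_lt] at h
    have := n.cast_nonneg (α := ℝ)
    exact (Nat.floor_eq_iff (by linarith)).2 ⟨by linarith, by linarith⟩
  have hsum : ∀ z (G : Finset ℕ), N z ∈ G → s (N z) z • m (N z) = ∑ n ∈ G, s n z • m n := by
    intro z G hG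
    rw [Finset.sum_eq_single_of_mem _ hG]
    intro n _ hn'
    have : u (g (z - p n)) = 0 := u2 _ (not_lt.1 fun h => hn' (hN n z h).symm)
    simp only [s, this, zero_mul, zero_smul]
  have hb : ∀ (G : Finset ℕ) (c : ℕ → ℝ) (D : ℝ), 0 ≤ D → G.card ≤ 3 → (∀ n, |c n| ≤ D) →
      ‖∑ n ∈ G, c n • m n‖ ≤ 3 * D := fun G c D hD hG hc => by
    refine (norm_sum_le _ _).trans ((Finset.sum_le_card_nsmul G _ D fun n _ => ?_).trans ?_)
    · rw [norm_smul]
      exact (mul_le_of_le_one_right (norm_nonneg _) (p7 n)).trans (hc n)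
    · rw [nsmul_eq_mul]
      exact mul_le_mul_of_nonneg_right (by exact_mod_cast hG) hD
  set κ : ℝ := 1 / (6 * (4 + 6 * K)) with hκ
  have κ0 : 0 < κ := by positivity
  have κ1 : κ * (4 + 6 * K) = 1 / 6 := by rw [hκ]; field_simp
  have κ2 : κ ≤ 1 := by nlinarith
  let f : X → X := fun z => z + κ • s (N z) z • m (N z)
  refine (H f ⟨1 / 2, by norm_num, fun z _ ε _ _ w hw => ?_⟩
    ⟨κ * (3 * (4 + 6 * K)), fun t _ z h ht _ => ?_⟩).elim fun c ⟨c0, hc⟩ => ?_
  rotate_right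
  · set ρ := min c 1 / 2 with hρ
    have ρ0 : 0 < ρ := by positivity
    have ρ1 : 2 * ρ ≤ c := by linarith [min_le_left c 1]
    have ρ2 : 2 * ρ ≤ 1 := by linarith [min_le_right c 1]
    obtain ⟨n, hn'⟩ := exists_nat_one_div_lt (show 0 < κ * ρ / 256 by positivity)
    have hn2 : 1 / ((n : ℝ) + 8) ≤ κ * ρ / 256 :=
      (one_div_le_one_div_of_le (by positivity) (by linarith)).trans hn'.le
    set G := 1 - Real.cos (ρ * k n (v n)) with hG
    have kv := (le_abs_self _).trans (p4 n (v n))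
    have v0 := norm_nonneg (v n)
    have q5 := p5 n
    have q6 := p6 n
    have q7 := p7 n
    have q8 := p8 n
    have r0 : 0 ≤ ρ * k n (v n) := mul_nonneg ρ0.le (by linarith)
    have r1 : ρ * k n (v n) ≤ 2 * ρ := by nlinarith
    have G1 : G ≤ ρ := by
      have := Real.one_sub_sq_div_two_le_cos (x := ρ * k n (v n))
      nlinarith
    have G2 : ρ ^ 2 * ‖v n‖ ^ 2 / 32 ≤ G := by
      have h1 := Real.cos_le_one_sub_mul_cos_sq (x := ρ * k n (v n))
        (by rw [abs_of_nonneg r0]; linarith [Real.pi_gt_three])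
      have h2 : 1 / 8 ≤ 2 / Real.pi ^ 2 := by
        rw [div_le_div_iff₀ (by norm_num) (by positivity)]
        nlinarith [Real.pi_le_four, Real.pi_pos]
      have h3 : (ρ * (‖v n‖ / 2)) ^ 2 ≤ (ρ * k n (v n)) ^ 2 := by gcongr
      nlinarith [sq_nonneg (ρ * k n (v n))]
    have G0 : 0 ≤ G := le_trans (by positivity) G2
    have κG := mul_nonneg κ0.le G0
    have κG1 : κ * G ≤ ρ := by nlinarith
    have e1 : ρ < (ρ + κ * G) * ‖m n‖ := by
      have h1 := mul_lt_mul_of_pos_left (p9 n) ρ0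
      have h2 := mul_le_mul_of_nonneg_right hn2 (show 0 ≤ 4 * ρ * ‖v n‖ ^ 2 by positivity)
      have h3 := mul_le_mul_of_nonneg_left G2 κ0.le
      nlinarith
    have e2 : (ρ + κ * G) * ‖m n‖ ≤ 2 * ρ := by nlinarith
    have hf : ∀ w : X, ‖w‖ ≤ 1 → f (p n + w) = p n + w + κ • (1 - Real.cos (k n w)) • m n := by
      intro w hw
      have h1 := (hg w).trans hw
      have h2 : N (p n + w) = n := hN n _ (by rw [add_sub_cancel_left]; linarith)
      simp only [f, s, h2, add_sub_cancel_left, u1 _ h1, one_mul]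
    have hv := hc _ (ρ0.trans e1) (by linarith) (p n) trivial (subset_univ _)
    have hm : ∀ w : X, ‖w‖ = 1 → ‖ρ • w‖ = ρ := fun w hw => by
      rw [norm_smul, hw, mul_one, Real.norm_of_nonneg ρ0.le]
    have hm' : ∀ w : X, ‖w‖ = 1 → p n + ρ • w ∈ ball (p n) ((ρ + κ * G) * ‖m n‖) := fun w hw => by
      rw [mem_ball, dist_self_add_left, hm w hw]
      exact e1
    obtain ⟨z, hz, hz'⟩ := hv (mem_image_of_mem f (hm' _ (p1 n))) (mem_image_of_mem f (hm' _ (p2 n)))
      (show (0 : ℝ) ≤ 1 / 2 by norm_num) (show (0 : ℝ) ≤ 1 / 2 by norm_num) (by norm_num)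
    obtain ⟨w, rfl⟩ : ∃ w, z = p n + w := ⟨z - p n, by abel⟩
    rw [mem_ball, dist_self_add_left] at hz
    rw [hf w (by linarith), hf (ρ • (m n + v n)) (by rw [hm _ (p1 n)]; linarith),
      hf (ρ • (m n - v n)) (by rw [hm _ (p2 n)]; linarith)] at hz'
    simp only [map_smul, map_add, map_sub, p3, zero_add, zero_sub, smul_eq_mul, mul_neg,
      Real.cos_neg, ← hG] at hz'
    have h1 : w = (ρ + κ * G - κ * (1 - Real.cos (k n w))) • m n := by
      linear_combination (norm := module) hz'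
    have h2 : k n w = 0 := by rw [h1, map_smul, p3, smul_zero]
    rw [h2, Real.cos_zero, sub_self, mul_zero, sub_zero] at h1
    rw [h1, norm_smul, Real.norm_of_nonneg (by linarith)] at hz
    exact lt_irrefl _ hz
  · have h1 : ApproximatesLinearOn f (ContinuousLinearMap.id ℝ X) univ (1 / 2) := by
      intro a _ b _
      have e : f a - f b - ContinuousLinearMap.id ℝ X (a - b) =
          κ • ∑ n ∈ {N a, N b}, (s n a - s n b) • m n := by
        simp only [f, sub_smul, Finset.sum_sub_distrib, ContinuousLinearMap.id_apply]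
        rw [← hsum a _ (by simp), ← hsum b _ (by simp)]
        module
      rw [e, norm_smul, Real.norm_of_nonneg κ0.le]
      have := mul_le_mul_of_nonneg_left (hb {N a, N b} (fun n => s n a - s n b) _ (by positivity)
        (Finset.card_le_two.trans (by norm_num)) fun n => (hs n).1 a b) κ0.le
      refine this.trans (le_of_eq ?_)
      push_cast
      linear_combination 3 * ‖a - b‖ * κ1
    obtain ⟨a, ha, ha'⟩ := h1.surjOn_closedBall_of_nonlinearRightInverse
      ⟨id, 1, fun _ => by simp, fun _ => rfl⟩ (ε := 2 * dist w (f z)) (b := z) (by positivity)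
      (subset_univ _) (show w ∈ _ by
        rw [mem_closedBall]
        push_cast
        linarith)
    exact ⟨a, closedBall_subset_ball (by linarith [mem_ball.1 hw]) ha, ha'⟩
  · have e : f (z + h) - (2 : ℝ) • f z + f (z - h) =
        κ • ∑ n ∈ {N (z + h), N z, N (z - h)}, (s n (z + h) - 2 * s n z + s n (z - h)) • m n := by
      simp only [f, sub_smul, add_smul, mul_smul, Finset.sum_sub_distrib, Finset.sum_add_distrib,
        ← Finset.smul_sum]
      rw [← hsum (z + h) _ (by simp), ← hsum z _ (by simp), ← hsum (z - h) _ (by simp)]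
      module
    rw [e, norm_smul, Real.norm_of_nonneg κ0.le, mul_assoc]
    refine mul_le_mul_of_nonneg_left ((hb _ _ _ (by positivity) Finset.card_le_three
      fun n => (hs n).2 z h).trans ?_) κ0.le
    rw [mul_assoc]
    gcongr

theorem gold (z : Dl (Dl X)) (hz : ‖z‖ ≤ 1) (f g : Dl X) (η : ℝ) (hη : 0 < η) :
    ∃ y : X, ‖y‖ ≤ 1 ∧ |z f - f y| < η ∧ |z g - g y| < η := by
  have h : (z f, z g) ∈ closure (f.prod g '' closedBall 0 1) := by
    by_contra h
    obtain ⟨l, u, h1, h2⟩ := geometric_hahn_banach_closed_point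
      ((convex_closedBall (0 : X) 1).is_linear_image (f.prod g).isLinear).closure isClosed_closure h
    have h3 : ∀ y : X, ‖y‖ ≤ 1 → l.comp (f.prod g) y < u := fun y hy =>
      h1 _ (subset_closure ⟨y, by simpa using hy, rfl⟩)
    have h4 : ‖l.comp (f.prod g)‖ ≤ u := by
      refine ContinuousLinearMap.opNorm_le_of_unit_norm ((map_zero _).symm.trans_le (h3 0 (by simp)).le)
        fun y hy => abs_le.2 ⟨?_, (h3 y hy.le).le⟩
      have := h3 (-y) (by rw [norm_neg, hy])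
      rw [map_neg] at this
      linarith
    have hl : ∀ a b : ℝ, l (a, b) = l (1, 0) * a + l (0, 1) * b := fun a b => by
      rw [show (a, b) = a • ((1, 0) : ℝ × ℝ) + b • ((0, 1) : ℝ × ℝ) by simp, map_add, map_smul,
        map_smul, smul_eq_mul, smul_eq_mul]
      ring
    have h5 : l.comp (f.prod g) = l (1, 0) • f + l (0, 1) • g := by
      ext y
      exact hl _ _
    have h6 := (le_abs_self _).trans (z.le_of_opNorm_le hz (l.comp (f.prod g)))
    rw [one_mul] at h6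
    have h7 : z (l.comp (f.prod g)) = l (z f, z g) := by
      rw [h5, map_add, map_smul, map_smul, hl (z f)]
      rfl
    linarith
  obtain ⟨_, ⟨y, hy, rfl⟩, h'⟩ := Metric.mem_closure_iff.1 h η hη
  rw [Prod.dist_eq, max_lt_iff] at h'
  exact ⟨y, by simpa using hy, h'⟩

theorem milman [CompleteSpace X] (h : ∀ ε > 0, ∃ δ > 0, ∀ a b : X, ‖a‖ ≤ 1 → ‖b‖ ≤ 1 →
    ε ≤ ‖a - b‖ → ‖a + b‖ ≤ 2 - δ) : Reflexive X := by
  have key : ∀ z : Dl (Dl X), ‖z‖ = 1 → z ∈ range (NormedSpace.inclusionInDoubleDualLi ℝ) := by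
    intro z hz
    rw [← (NormedSpace.inclusionInDoubleDualLi ℝ (E := X)).isometry.isClosedEmbedding.isClosed_range.closure_eq,
      Metric.mem_closure_iff]
    intro ε hε
    obtain ⟨δ, hδ, h'⟩ := h (ε / 4) (by positivity)
    obtain ⟨f, hf, hf'⟩ := z.exists_lt_apply_of_lt_opNorm (r := 1 - δ / 4) (by linarith)
    wlog hs : 1 - δ / 4 < z f generalizing f
    · refine this (-f) (by rwa [norm_neg]) (by rwa [map_neg, norm_neg]) ?_
      rw [map_neg]
      exact (lt_abs.1 hf').resolve_left hs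
    obtain ⟨y, hy, hy', -⟩ := gold z hz.le f f (δ / 4) (by positivity)
    refine ⟨_, ⟨y, rfl⟩, ?_⟩
    rw [dist_eq_norm]
    refine lt_of_le_of_lt (ContinuousLinearMap.opNorm_le_of_unit_norm (half_pos hε).le
      fun g hg => ?_) (half_lt_self hε)
    obtain ⟨w, hw, hw1, hw2⟩ := gold z hz.le f g (min (δ / 4) (ε / 4)) (by positivity)
    have h1 : ‖w - y‖ < ε / 4 := by
      by_contra hc
      have h2 := h' w y hw hy (not_lt.1 hc)
      have h3 := (le_abs_self _).trans (f.le_of_opNorm_le hf.le (w + y))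
      rw [map_add] at h3
      linarith [abs_lt.1 hy', abs_lt.1 hw1, min_le_left (δ / 4) (ε / 4)]
    have h2 := g.le_of_opNorm_le hg.le (w - y)
    rw [map_sub, Real.norm_eq_abs] at h2
    change |z g - g y| ≤ _
    linarith [abs_sub_le (z g) (g w) (g y), min_le_right (δ / 4) (ε / 4)]
  intro z
  by_cases hz : z = 0
  · exact ⟨0, fun f => by simp [hz, app]⟩
  · obtain ⟨y, hy⟩ := key (‖z‖⁻¹ • z) (norm_smul_inv_norm hz)
    refine ⟨‖z‖ • y, fun f => ?_⟩
    have h1 : f y = ‖z‖⁻¹ * z f := congrArg (fun w : Dl (Dl X) => w f) hy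
    have h2 := norm_ne_zero_iff.2 hz
    simp only [app, map_smul, smul_eq_mul, h1]
    field_simp

theorem super (h : PowerType2 X) : Superreflexive X := by
  obtain ⟨L, hL, h⟩ := h
  haveI : UniformConvexSpace X := ⟨fun ε hε => ⟨2 * (L * ε ^ 2), by positivity,
    fun x hx y hy hxy => by
      have h1 := h ε ⟨hε.le, by linarith [norm_sub_le x y]⟩ x y hx hy hxy
      rw [norm_smul, Real.norm_of_nonneg (by norm_num)] at h1
      linarith⟩⟩
  intro Y _ _ _ hY
  refine milman fun ε hε => ?_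
  obtain ⟨δ, hδ, h'⟩ := exists_forall_closed_ball_dist_add_le_two_sub X
    (show 0 < ε / 4 by positivity)
  refine ⟨δ / 2, by positivity, fun a b ha hb hab => ?_⟩
  set η := min 1 (δ / 12) with hη
  have η0 : 0 < η := by positivity
  have η1 : η ≤ 1 := min_le_left _ _
  have η2 : η ≤ δ / 12 := min_le_right _ _
  obtain ⟨T, hT⟩ := hY (Submodule.span ℝ {a, b})
    (FiniteDimensional.span_of_finite ℝ (toFinite _)) η η0
  let a' : Submodule.span ℝ ({a, b} : Set Y) := (1 + η)⁻¹ • ⟨a, Submodule.subset_span (by simp)⟩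
  let b' : Submodule.span ℝ ({a, b} : Set Y) := (1 + η)⁻¹ • ⟨b, Submodule.subset_span (by simp)⟩
  have hn : ∀ c : Y, (1 + η) * ‖(1 + η)⁻¹ • c‖ = ‖c‖ := fun c => by
    rw [norm_smul, Real.norm_of_nonneg (by positivity)]
    field_simp
  have h1 : ‖T a'‖ ≤ 1 := ((hT a').2.trans_eq (hn a)).trans ha
  have h2 : ‖T b'‖ ≤ 1 := ((hT b').2.trans_eq (hn b)).trans hb
  have h3 := (hT (a' - b')).1
  have h4 := (hT (a' + b')).1
  have h5 : ((a' - b' : Submodule.span ℝ ({a, b} : Set Y)) : Y) = (1 + η)⁻¹ • (a - b) := by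
    simp [a', b', smul_sub]
  have h6 : ((a' + b' : Submodule.span ℝ ({a, b} : Set Y)) : Y) = (1 + η)⁻¹ • (a + b) := by
    simp [a', b', smul_add]
  rw [h5, map_sub] at h3
  rw [h6, map_add] at h4
  have h7 := hn (a - b)
  have h8 := hn (a + b)
  have h9 := h' h1 h2 (by
    nlinarith [norm_nonneg (T a' - T b'), norm_nonneg ((1 + η)⁻¹ • (a - b))])
  have h10 : ‖(1 + η)⁻¹ • (a + b)‖ ≤ (1 + η) * (2 - δ) :=
    h4.trans (mul_le_mul_of_nonneg_left h9 (by positivity))
  have h11 := mul_le_mul_of_nonneg_left h10 (show 0 ≤ 1 + η by positivity)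
  nlinarith [mul_pos η0 hδ, mul_pos (mul_pos η0 η0) hδ]

theorem result (X : Type) [NormedAddCommGroup X] [NormedSpace ℝ X] [CompleteSpace X]
    (H : ∀ f : X → X, LipOpen univ f → SecondLip univ f → LocConv univ f) :
    PowerType2 X ∧ Superreflexive X :=
  ⟨power X H, super (power X H)⟩

end Pool.Agent.Results.MP_122452_an.PowerType
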